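import Pool.Agent.H721CS.Final

/-!
# Real simplices are unique C-supports with no good supporting hyperplane

The standard real simplex `K ⊂ ℝⁿ ⊂ ℂⁿ`, `n ≥ 2`, is a unique C-support, and no real supporting
hyperplane of `K` belongs to `S₀(K)`.  The definitions are in `Pool/Agent/H721CS/Defs.lean`.
-/

set_option autoImplicit false

open Set Pool.Agent.H721CS

namespace Pool.Agent.Results.MP_564bf3_an.RealSimplex

/-- **Main result** (negative answer to Q1).  For every `n ≥ 2` the standard real simplex
`K ⊂ ℝⁿ ⊂ ℂⁿ` is a unique C-support, while the closure of `S₀(K)` is a proper subset of `S(K)`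
(in fact `S₀(K)` is empty and `S(K)` is not).  This holds both when the relative interior of `K`
in `V(K)` is the topological interior with respect to the complex affine span `V(K)`, and when it
is the usual relative interior of the convex set `K` (with respect to its real affine span). -/
theorem result : ∀ n : ℕ, 2 ≤ n →
    IsUniqueCSupport (simplex n) ∧
    closure (S₀ (relInterior (simplex n)) (simplex n)) ⊂ S (simplex n) ∧
    closure (S₀ (intrinsicInterior ℝ (simplex n)) (simplex n)) ⊂ S (simplex n) :=
  Pool.Agent.H721CS.main

end Pool.Agent.Results.MP_564bf3_an.RealSimplex
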